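import Pool.Agent.Lib.MP_bb2768_gt.CL.Spec

/-! Module CCC of the classification (MP_bb2768): a `σ`-compact locally compact group is ccc. -/

set_option autoImplicit false

namespace Pool.Agent.Lib.MPbb2768.CL

open Topology Set MeasureTheory

theorem specCCC : SpecCCC := by
  intro L _ _ _ _ _ _ F hF hd
  letI : MeasurableSpace L := borel L
  haveI : BorelSpace L := ⟨rfl⟩
  have hc := Measure.countable_meas_pos_of_disjoint_iUnion (μ := (Measure.haar : Measure L))
    (As := fun W : F => (W : Set L)) (fun W => (hF W.1 W.2).1.measurableSet)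
    (fun A B hAB => hd A.2 B.2 (fun h => hAB (Subtype.ext h)))
  have hu : {W : F | 0 < (Measure.haar : Measure L) (W : Set L)} = univ := by
    rw [eq_univ_iff_forall]
    intro W
    exact (hF W.1 W.2).1.measure_pos _ (hF W.1 W.2).2
  rw [hu] at hc
  exact countable_coe_iff.1 (countable_univ_iff.1 hc)

end Pool.Agent.Lib.MPbb2768.CL
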