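import Pool.Agent.Lib.MP_bb2768_gt.CL.Spec

/-!
# The subgroup `H × Σ` of `H × 𝕋^ℝ` (SpecEX)
-/

set_option autoImplicit false

namespace Pool.Agent.Lib.MPbb2768.CL

open Topology Set Pool.Agent.Lib.MP_bb2768_gt

namespace EXM

variable {H : Type} [Group H]

theorem mem_SS (x : H × (ℝ → Circle)) : x ∈ SS H ↔ {t | x.2 t ≠ 1}.Countable := Iff.rfl

theorem dense [TopologicalSpace H] : GdDense (SS H : Set (H × (ℝ → Circle))) := by
  classical
  intro S hS ⟨⟨h, c⟩, hc⟩
  obtain ⟨f, hf, rfl⟩ := isGδ_iff_eq_iInter_nat.1 hS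
  have h1 : ∀ n, ∃ J : Finset ℝ, ∀ c' : ℝ → Circle, (∀ t ∈ J, c' t = c t) → (h, c') ∈ f n := by
    intro n
    have h2 : IsOpen {c' : ℝ → Circle | (h, c') ∈ f n} :=
      (hf n).preimage (Continuous.prodMk_right h)
    have h3 : c ∈ {c' : ℝ → Circle | (h, c') ∈ f n} := mem_iInter.1 hc n
    obtain ⟨J, u, hu1, hu2⟩ := isOpen_pi_iff.1 h2 c h3
    refine ⟨J, fun c' hc' => hu2 ?_⟩
    intro t ht
    rw [hc' t ht]
    exact (hu1 t ht).2
  choose J hJ using h1
  refine ⟨(h, fun t => if ∃ n, t ∈ J n then c t else 1), ?_, ?_⟩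
  · refine mem_iInter.2 fun n => hJ n _ fun t ht => ?_
    exact if_pos ⟨n, ht⟩
  · show {t | (if ∃ n, t ∈ J n then c t else 1) ≠ 1}.Countable
    refine Countable.mono ?_ (countable_iUnion fun n => (J n).countable_toSet)
    intro t ht
    by_contra hcon
    refine ht ?_
    refine if_neg ?_
    rintro ⟨n, hn⟩
    exact hcon (mem_iUnion.2 ⟨n, hn⟩)

theorem ne_top : SS H ≠ ⊤ := by
  intro htop
  have h1 : ((1, fun _ => Circle.exp Real.pi) : H × (ℝ → Circle)) ∈ SS H := by
    rw [htop]; trivial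
  rw [mem_SS] at h1
  have h2 : Circle.exp Real.pi ≠ 1 := by
    intro h
    have h3 := congrArg (fun z : Circle => (z : ℂ)) h
    simp only [Circle.coe_exp, Complex.exp_pi_mul_I, Circle.coe_one] at h3
    norm_num at h3
  have h4 : {t : ℝ | Circle.exp Real.pi ≠ 1} = univ := by
    ext t; simp [h2]
  have h5 : (univ : Set ℝ).Countable := h4 ▸ h1
  exact not_countable_univ h5

theorem openMap [TopologicalSpace H] : IsOpenMap (fun x : SS H => x.1.1) := by
  intro O hO
  obtain ⟨O', hO', rfl⟩ := isOpen_induced_iff.1 hO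
  have h1 : (fun x : SS H => x.1.1) '' (Subtype.val ⁻¹' O') =
      ⋃ c : {c : ℝ → Circle // {t | c t ≠ 1}.Countable}, {h : H | (h, c.1) ∈ O'} := by
    ext h
    simp only [mem_image, mem_preimage, mem_iUnion, mem_ofPred_eq]
    constructor
    · rintro ⟨⟨⟨h', c⟩, hx⟩, hxO, rfl⟩
      exact ⟨⟨c, hx⟩, hxO⟩
    · rintro ⟨⟨c, hc⟩, hcO⟩
      exact ⟨⟨(h, c), hc⟩, hcO, rfl⟩
  rw [h1]
  exact isOpen_iUnion fun c => hO'.preimage (Continuous.prodMk_left c.1)

theorem connected [TopologicalSpace H] (hH : ConnectedSpace H) : ConnectedSpace (SS H) := by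
  have hone : ∀ h : H, ((h, 1) : H × (ℝ → Circle)) ∈ SS H := by
    intro h
    rw [mem_SS]
    have : {t : ℝ | ((h, 1) : H × (ℝ → Circle)).2 t ≠ 1} = ∅ := by ext t; simp
    rw [this]; exact countable_empty
  let j : H → SS H := fun h => ⟨(h, 1), hone h⟩
  have hj : Continuous j := Continuous.subtype_mk (Continuous.prodMk_left 1) _
  have hjc : IsPreconnected (range j) := isPreconnected_range hj
  have hne : Nonempty (SS H) := ⟨j 1⟩
  have hpre : IsPreconnected (univ : Set (SS H)) := by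
    refine isPreconnected_of_forall (j 1) ?_
    rintro ⟨⟨h, c⟩, hx⟩ _
    have hp : ∀ s : ℝ, ((h, fun t => Circle.exp (s * Complex.arg (c t))) :
        H × (ℝ → Circle)) ∈ SS H := by
      intro s
      rw [mem_SS] at hx ⊢
      refine hx.mono ?_
      intro t ht hc
      apply ht
      show Circle.exp (s * Complex.arg (c t)) = 1
      have hc' : c t = 1 := hc
      rw [hc']
      simp
    let p : ℝ → SS H := fun s => ⟨(h, fun t => Circle.exp (s * Complex.arg (c t))), hp s⟩
    have hpc : Continuous p := by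
      refine Continuous.subtype_mk (Continuous.prodMk continuous_const ?_) _
      refine continuous_pi fun t => ?_
      exact Circle.exp.continuous.comp (continuous_id.mul continuous_const)
    have hp1 : p 1 = ⟨(h, c), hx⟩ := by
      apply Subtype.ext
      show ((h, fun t => Circle.exp (1 * Complex.arg (c t))) : H × (ℝ → Circle)) = (h, c)
      congr 1
      funext t
      rw [one_mul]
      exact Circle.exp_arg (c t)
    have hp0 : p 0 = j h := by
      apply Subtype.ext
      show ((h, fun t => Circle.exp (0 * Complex.arg (c t))) : H × (ℝ → Circle)) = (h, 1)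
      congr 1
      funext t
      simp
    refine ⟨range j ∪ range p, subset_univ _, Or.inl ⟨1, rfl⟩, Or.inr ⟨1, hp1⟩, ?_⟩
    exact IsPreconnected.union (j h) ⟨h, rfl⟩ ⟨0, hp0⟩ hjc (isPreconnected_range hpc)
  exact { isPreconnected_univ := hpre, toNonempty := hne }

end EXM

theorem specEX : SpecEX := fun _ _ _ _ _ =>
  ⟨EXM.dense, EXM.ne_top, EXM.openMap, EXM.connected⟩

end Pool.Agent.Lib.MPbb2768.CL
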