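import Mathlib
import Pool.Agent.Lib.MP_bb2768_gt.Defs

/-!
# Classification (MP_bb2768): `G_δ`-dense subgroups of locally compact groups

THEOREM.  Let `L` be a locally compact Hausdorff group, `G` a subgroup of `L` that meets every nonempty `G_δ`-subset of `L`.
(a) `G` is `ℝ`-factorizable iff `L` is `σ`-compact; (b) `G` is weakly pseudocompact iff `L` is compact or `L` is not `σ`-compact or
`G ≠ L`; (c) `G` is precompact iff `L` is compact.  (d) For every `σ`-compact locally compact group `H` there is such a `G ≠ L` (`L` `σ`-compact)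
with an open continuous surjective homomorphism `G → H`; `G` is connected (abelian) if `H` is, precompact iff `H` is compact.

Form of a module: file `Pool/Agent/Lib/MP_bb2768_gt/CL/XXX.lean`, `import Pool.Agent.Lib.MP_bb2768_gt.CL.Spec`,
`set_option autoImplicit false`, namespace `Pool.Agent.Lib.MPbb2768.CL`, own lemmas in the namespace `XXXM`,
`theorem specXXX (hYYY : SpecYYY) .. : SpecXXX` (the hypotheses are the Specs named in brackets, in this order).
-/

set_option autoImplicit false

namespace Pool.Agent.Lib.MPbb2768.CL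

open Topology Set Pool.Agent.Lib.MP_bb2768_gt

/-- `G` is `G_δ`-dense in `L`: it meets every nonempty `G_δ`-subset. -/
def GdDense {L : Type} [TopologicalSpace L] (G : Set L) : Prop :=
  ∀ S : Set L, IsGδ S → S.Nonempty → (S ∩ G).Nonempty

/-- KK (200 lines, Kakutani - Kodaira).
Proof.  `K n` = `compactCovering L n` (increasing compact sets, union `L`).  Choose `V : ℕ → Set L`, `V n ∈ 𝓝 1`, `V n` compact (closed), `V 0 ⊆ U 0`, and
`V (n+1) ⊆ V n ∩ U (n+1)`, `V (n+1) * V (n+1) ⊆ V n`, `(V (n+1))⁻¹ ⊆ V n`, `x * v * x⁻¹ ∈ V n` for `x ∈ K n`, `v ∈ V (n+1)`: the last by compactness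
(for `x ∈ K n` the map `(x, v) ↦ x v x⁻¹` sends `(x, 1)` into the interior of `V n`; tube lemma / `IsCompact.eventually_forall_of_forall_eventually`).
`N = ⋂ V n` is a subgroup, closed, contained in all `U n`; normal: `x ∈ K m`, then `x v x⁻¹ ∈ V n` for all `n ≥ m`, and `V` decreases.  Every open `O ⊇ N` contains some
`V n` (compactness, decreasing).  Second countability of `L ⧸ N`: `π` is open and continuous; let `W n = interior (π '' V n) ∋ 1` (open as `π` is open: `π '' interior (V n)`).  For each `n`
the compact sets `π '' (compactCovering L m)` are covered by finitely many left translates `g • W n`; the countable family of all these translates is a basis: for `y ∈ O` open choose `n`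
with `y * (W n)⁻¹ * W n ⊆ O` (the `W n` form a basis of neighbourhoods at `1`: an open `O' ∋ 1` of `L ⧸ N` has `π⁻¹ O' ⊇ N`, so `π⁻¹ O' ⊇ V n`), and a translate `g • W n ∋ y`; then
`g ∈ y * (W n)⁻¹`, `g • W n ⊆ O` (`TopologicalSpace.isTopologicalBasis_of_isOpen_of_nhds`, `IsTopologicalBasis.secondCountableTopology`).  One may
also show that `L ⧸ N` is separable and first countable at `1` and use the countably generated uniformity. -/
def SpecKK : Prop := ∀ (L : Type) [Group L] [TopologicalSpace L] [IsTopologicalGroup L] [T2Space L] [LocallyCompactSpace L]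
  [SigmaCompactSpace L] (U : ℕ → Set L), (∀ n, U n ∈ 𝓝 (1 : L)) →
  ∃ N : Subgroup L, N.Normal ∧ IsClosed (N : Set L) ∧ (∀ n, (N : Set L) ⊆ U n) ∧ SecondCountableTopology (L ⧸ N)

/-- CCC (40 lines).  Proof.  Haar measure (`borelize L`, `MeasureTheory.Measure.haar`) is `σ`-finite and positive on nonempty open sets;
`MeasureTheory.Measure.countable_meas_pos_of_disjoint_iUnion` (or `..of_disjoint_of_meas_iUnion_ne_top`) for the family indexed by `F`. -/
def SpecCCC : Prop := ∀ (L : Type) [Group L] [TopologicalSpace L] [IsTopologicalGroup L] [T2Space L] [LocallyCompactSpace L]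
  [SigmaCompactSpace L] (F : Set (Set L)), (∀ W ∈ F, IsOpen W ∧ W.Nonempty) → F.PairwiseDisjoint id → F.Countable

/-- INV (130 lines, from CCC).  The closure of an open set is invariant under all small subgroups.
Proof.  Call an open set `W` TAME if there are `U n ∈ 𝓝 1` such that `W * N ⊆ W` for every subgroup `N ⊆ ⋂ U n`.  (1) Every point `x` of an open set `O` has a nonempty tame open set `W` with
`W ⊆ O` (even `x ∈ W`): choose open `V n ∋ 1` with `x • V 0 ⊆ O`, `V (n+1) * V (n+1) ⊆ V n`; `P 0 = {x} * V 1`, `P (n+1) = P n * V (n+2)`, `W = ⋃ P n`.  Each `P n` is open; `P n * V (n+1) ⊆ {x} * V 0` by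
induction (`P (n+1) * V (n+2) = P n * V (n+2) * V (n+2) ⊆ P n * V (n+1)`), so `W ⊆ O`; and `P n * N ⊆ P (n+1)` if `N ⊆ V (n+2)`.  (2) Zorn: a maximal family `F` of pairwise disjoint nonempty tame open subsets of `V`;
countable by CCC; `V ⊆ closure (⋃ F)` (otherwise the open set `V \ closure (⋃ F)` contains a nonempty tame open set, and `F` is not maximal), so `closure V = closure (⋃ F)`.  Put the countably many
sequences of neighbourhoods of the members of `F` into one sequence.  Then `(⋃ F) * N ⊆ ⋃ F`, and right multiplication by `y ∈ N` is continuous. -/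
def SpecINV : Prop := ∀ (L : Type) [Group L] [TopologicalSpace L] [IsTopologicalGroup L] [T2Space L] [LocallyCompactSpace L]
  [SigmaCompactSpace L] (V : Set L), IsOpen V →
  ∃ U : ℕ → Set L, (∀ n, U n ∈ 𝓝 (1 : L)) ∧ ∀ N : Subgroup L, (∀ n, (N : Set L) ⊆ U n) →
    ∀ x ∈ closure V, ∀ y ∈ N, x * y ∈ closure V

/-- RFA (150 lines, from KK, INV).  `G` is `ℝ`-factorizable.
Proof.  `f : G → ℝ` continuous.  For `q ∈ ℚ` let `V q` be open in `L` with `V q ∩ G = {f < q}`; INV for all `V q`, all neighbourhoods in one sequence, KK gives `N`.  If `x, y ∈ G`, `x⁻¹ y ∈ N`, `f x < q < f y`: `x ∈ V q`,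
so `y = x (x⁻¹ y) ∈ closure (V q)`; `G` is dense, so `y` is in the closure (in `G`) of `{f < q}`, `f y ≤ q`, contradiction.  So `f` is constant on the fibres of `π : G → H = L ⧸ N`.  `H` is a second countable Hausdorff group; the
fibres of `L → H` are `G_δ` (points of `H` are), so `π` is onto, and for `O` open in `L` and `y ∈ π O` the set `O ∩ π⁻¹(y)` is a nonempty `G_δ`, so it meets `G`: `π (O ∩ G) = π (O)` is open.  So `π` restricted to `G` is an open map onto `H`,
a quotient map, and `h` with `f = h ∘ π` is continuous. -/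
def SpecRFA : Prop := ∀ (L : Type) [Group L] [TopologicalSpace L] [IsTopologicalGroup L] [T2Space L] [LocallyCompactSpace L]
  [SigmaCompactSpace L] (G : Subgroup L), GdDense (G : Set L) → RFactorizable G

/-- RFB (80 lines).  Proof.  `C` a compact neighbourhood of `1` in `L`.  `L` is completely regular: there is a continuous `F : L → ℝ` with `F 1 = 1`, `F = 0` outside `C`.  `F|_G = h ∘ π`, `π : G → H`.  `W = {h > 1/2}` is an open
neighbourhood of `1` in `H`, `π⁻¹ W ⊆ C`.  `H` is second countable, so Lindelöf: countably many `y n • W` cover `H`; with `π (x n) = y n`: `G ⊆ ⋃ x n • C`.  For `z ∈ L` the set `z • interior C`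
meets `G`, so `z ∈ g • C⁻¹ ⊆ x n • (C * C⁻¹)`.  So `L = ⋃ x n • (C * C⁻¹)`, compact sets. -/
def SpecRFB : Prop := ∀ (L : Type) [Group L] [TopologicalSpace L] [IsTopologicalGroup L] [T2Space L] [LocallyCompactSpace L]
  (G : Subgroup L), Dense (G : Set L) → RFactorizable G → SigmaCompactSpace L

/-- WPA (150 lines).  Proof.  If `X` is compact take `K = X`.  If `p ∉ G`: `Y = {x // x ≠ p}` is open in `X`, so locally compact Hausdorff, `K = OnePoint Y`, `e : G → Y → K`.  Embedding (`OnePoint.isOpenEmbedding_coe`).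
Every nonempty `G_δ`-set `S = ⋂ O n` of `K` meets `e G` (so the range is dense): if `↑y ∈ S` for some `y : Y`, then `{x | ∃ hx : x ≠ p, ↑⟨x, hx⟩ ∈ S}` is a nonempty `G_δ` of `X` (`Y` is open in `X`).  If `∞ ∈ S`: the complement of
`O n` is (the image of) a compact set `C n` of `Y`, compact in `X`, so closed; `⋂ (X \ C n)` is a `G_δ` of `X` that contains `p`, so it contains a `g ∈ G`, `g ≠ p`, and `e g ∈ O n` for all `n`.
If `G = X` is not `σ`-compact: `K = OnePoint X`; if `∞ ∈ S`, the complements `C n` of the `O n` do not cover `X`. -/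
def SpecWPA : Prop := ∀ (X : Type) [TopologicalSpace X] [T2Space X] [LocallyCompactSpace X] (G : Set X), GdDense G →
  (CompactSpace X ∨ ¬ SigmaCompactSpace X ∨ G ≠ univ) → WeaklyPseudocompact G

/-- WPB (50 lines).  Proof.  `e : X → K`.  If `q ∈ K` is not in the range: `X = ⋃ compactCovering X n`, `S = ⋂ (K \ e (compactCovering X n))` is a `G_δ` that contains `q` and misses `e X`.  So `e` is onto,
a homeomorphism. -/
def SpecWPB : Prop := ∀ (X : Type) [TopologicalSpace X] [SigmaCompactSpace X], WeaklyPseudocompact X → CompactSpace X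

/-- PRE (100 lines).  Proof.  If `G` is precompact: `C` a compact neighbourhood of `1`, `G ⊆ F * C` with `F` finite, `F * C` is closed, `G` dense, so `L = F * C` is compact.  If `L` is compact and `U ∈ 𝓝 (1 : G)`: `U ⊇ V ∩ G`, `V` open in `L`; `W` open,
`1 ∈ W`, `W⁻¹ * W ⊆ V`; `L = ⋃_{x ∈ F₀} x • W`, `F₀` finite; choose `g_x ∈ G ∩ x • W`; if `g ∈ x • W` then `g_x⁻¹ g ∈ W⁻¹ * W ⊆ V`. -/
def SpecPRE : Prop := ∀ (L : Type) [Group L] [TopologicalSpace L] [IsTopologicalGroup L] [T2Space L] [LocallyCompactSpace L]
  (G : Subgroup L), Dense (G : Set L) → (Precompact G ↔ CompactSpace L)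

/-- The subgroup `H × Σ` of `H × 𝕋^ℝ`: the points with countable support in the second variable. -/
def SS (H : Type) [Group H] : Subgroup (H × (ℝ → Circle)) where
  carrier := {x | {t | x.2 t ≠ 1}.Countable}
  mul_mem' := by
    intro x y hx hy
    refine (hx.union hy).mono ?_
    intro t ht
    by_contra hcon
    simp only [mem_union, mem_ofPred_eq, not_or, not_not] at hcon ht
    exact ht (by simp [hcon.1, hcon.2])
  one_mem' := by
    have : {t : ℝ | (1 : H × (ℝ → Circle)).2 t ≠ 1} = ∅ := by ext t; simp
    rw [mem_ofPred_eq, this]; exact countable_empty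
  inv_mem' := by
    intro x hx
    refine Countable.mono ?_ hx
    intro t ht
    simpa using ht

/-- EX (150 lines).  Proof.  `G_δ`-dense: `S = ⋂ O n ∋ (h, c)`; every `O n` contains `{(h, c') | c' = c on J n}`, `J n` finite (product topology); `J = ⋃ J n`, `c' = c` on `J`, `1` elsewhere.  `SS H ≠ ⊤`: a constant
`z ≠ 1`, `ℝ` is uncountable.  The projection to `H` is open: `(h, c) ∈ O ∩ SS H`; for `h'` near `h` `(h', c) ∈ O ∩ SS H`.  Connected: for `(h, c) ∈ SS H`, `c t = Circle.exp (θ t)` (`θ t = Complex.arg`, `0` where `c t = 1`), the path `s ↦ (h, fun t => Circle.exp (s * θ t))`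
stays in `SS H` and ends in `H × {1}`, which is connected. -/
def SpecEX : Prop := ∀ (H : Type) [Group H] [TopologicalSpace H] [IsTopologicalGroup H] [T2Space H],
  GdDense (SS H : Set (H × (ℝ → Circle))) ∧ SS H ≠ ⊤ ∧ IsOpenMap (fun x : SS H => x.1.1) ∧
    (ConnectedSpace H → ConnectedSpace (SS H))

end Pool.Agent.Lib.MPbb2768.CL
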