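import Mathlib
import Pool.Agent.Lib.MP_bb2768_gt.CL.Spec

set_option autoImplicit false

namespace Pool.Agent.Lib.MPbb2768.CL

open Topology Set Pool.Agent.Lib.MP_bb2768_gt

namespace RFAM

theorem dense_of {L : Type} [TopologicalSpace L] {G : Set L} (h : GdDense G) : Dense G := by
  rw [dense_iff_inter_open]
  intro U hU hne
  exact h U hU.isGδ hne

end RFAM

theorem specRFA (hKK : SpecKK) (hINV : SpecINV) : SpecRFA := by
  intro L _ _ _ _ _ _ G hG f hf
  have hd : Dense (G : Set L) := RFAM.dense_of hG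
  have h1 : ∀ q : ℚ, ∃ V : Set L, IsOpen V ∧ ∀ x : G, (x : L) ∈ V ↔ f x < q := by
    intro q
    have h0 : IsOpen {x : G | f x < q} := isOpen_lt hf continuous_const
    obtain ⟨V, hV, hVG⟩ := isOpen_induced_iff.1 h0
    refine ⟨V, hV, fun x => ?_⟩
    have := Set.ext_iff.1 hVG x
    simpa using this
  choose V hVo hV using h1
  have h2 := fun q => hINV L (V q) (hVo q)
  choose U hU hUN using h2
  obtain ⟨e⟩ : Nonempty (ℕ ≃ ℚ × ℕ) := ⟨(Denumerable.eqv (ℚ × ℕ)).symm⟩
  obtain ⟨N, hNn, hNc, hNU, hN2⟩ := hKK L (fun n => U (e n).1 (e n).2) (fun n => hU _ _)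
  have := hNn
  have hNU' : ∀ q n, (N : Set L) ⊆ U q n := fun q n => by
    simpa using hNU (e.symm (q, n))
  have : IsClosed (N : Set L) := hNc
  have hle : ∀ x y : G, (x : L)⁻¹ * y ∈ N → f y ≤ f x := by
    intro x y hxy
    by_contra hlt
    push Not at hlt
    obtain ⟨q, hq1, hq2⟩ := exists_rat_btwn hlt
    have hx : (x : L) ∈ closure (V q) := subset_closure ((hV q x).2 hq1)
    have hy : (y : L) ∈ closure (V q) := by
      have := hUN q N (hNU' q) x hx _ hxy
      simpa using this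
    have hy2 : (y : L) ∈ closure (V q ∩ G) :=
      closure_minimal (hd.open_subset_closure_inter (hVo q)) isClosed_closure hy
    have hy3 : y ∈ closure {z : G | f z < q} := by
      rw [closure_subtype]
      refine closure_mono ?_ hy2
      rintro z ⟨hzV, hzG⟩
      exact ⟨⟨z, hzG⟩, (hV q ⟨z, hzG⟩).1 hzV, rfl⟩
    have hy4 : y ∈ {z : G | f z ≤ q} :=
      closure_minimal (fun z hz => le_of_lt hz) (isClosed_le hf continuous_const) hy3
    exact absurd hq2 (not_lt.2 hy4)
  have hconst : ∀ x y : G, (x : L)⁻¹ * y ∈ N → f x = f y := by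
    intro x y hxy
    refine le_antisymm (hle y x ?_) (hle x y hxy)
    have := N.inv_mem hxy
    simpa using this
  let π : G →* L ⧸ N := (QuotientGroup.mk' N).comp G.subtype
  have hπ : ∀ x : G, π x = ((x : L) : L ⧸ N) := fun _ => rfl
  have hmk : Continuous (fun x : L => (x : L ⧸ N)) := continuous_quot_mk
  have hπc : Continuous π := hmk.comp continuous_subtype_val
  have hfib : ∀ (O : Set L), IsOpen O → ∀ x ∈ O, ∃ g : G, (g : L) ∈ O ∧ π g = (x : L ⧸ N) := by
    intro O hO x hx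
    have hs : IsGδ ((fun x : L => (x : L ⧸ N)) ⁻¹' {(x : L ⧸ N)}) :=
      (IsGδ.singleton (x : L ⧸ N)).preimage hmk
    obtain ⟨g, ⟨hgO, hgs⟩, hgG⟩ := hG (O ∩ ((fun x : L => (x : L ⧸ N)) ⁻¹' {(x : L ⧸ N)}))
      (hO.isGδ.inter hs) ⟨x, hx, rfl⟩
    exact ⟨⟨g, hgG⟩, hgO, hgs⟩
  have hsurj : Function.Surjective π := by
    intro y
    obtain ⟨x, rfl⟩ := QuotientGroup.mk_surjective y
    obtain ⟨g, -, hg⟩ := hfib univ isOpen_univ x (mem_univ _)
    exact ⟨g, hg⟩
  have hopen : IsOpenMap π := by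
    intro O' hO'
    obtain ⟨O, hO, rfl⟩ := isOpen_induced_iff.1 hO'
    have : π '' ((↑) ⁻¹' O) = (fun x : L => (x : L ⧸ N)) '' O := by
      ext y
      constructor
      · rintro ⟨g, hg, rfl⟩
        exact ⟨g, hg, rfl⟩
      · rintro ⟨x, hx, rfl⟩
        obtain ⟨g, hgO, hg⟩ := hfib O hO x hx
        exact ⟨g, hgO, hg⟩
    rw [this]
    exact QuotientGroup.isOpenMap_coe O hO
  have hq : IsQuotientMap π := hopen.isQuotientMap hπc hsurj
  refine ⟨L ⧸ N, inferInstance, inferInstance, inferInstance, inferInstance, hN2, π,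
    fun y => f (Classical.choose (hsurj y)), hπc, hsurj, ?_, ?_⟩
  · rw [hq.continuous_iff]
    have : (fun y => f (Classical.choose (hsurj y))) ∘ π = f := by
      funext x
      have h3 := Classical.choose_spec (hsurj (π x))
      refine hconst _ _ ?_
      rw [hπ, hπ] at h3
      exact QuotientGroup.eq.1 h3
    rw [this]
    exact hf
  · intro x
    have h3 := Classical.choose_spec (hsurj (π x))
    refine (hconst _ _ ?_).symm
    rw [hπ, hπ] at h3
    exact QuotientGroup.eq.1 h3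

end Pool.Agent.Lib.MPbb2768.CL
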