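import Mathlib
import Pool.Agent.Lib.MP_bb2768_gt.CL.RFA

set_option autoImplicit false

/-! Assembly of the classification. -/

namespace Pool.Agent.Lib.MPbb2768.CL

open Topology Set Pool.Agent.Lib.MP_bb2768_gt

namespace FINM

/-- The classification of the `G_δ`-dense subgroups of locally compact groups. -/
theorem main1 (hRFA : SpecRFA) (hRFB : SpecRFB) (hWPA : SpecWPA) (hWPB : SpecWPB) (hPRE : SpecPRE)
    (L : Type) [Group L] [TopologicalSpace L] [IsTopologicalGroup L] [T2Space L]
    [LocallyCompactSpace L] (G : Subgroup L) (hG : GdDense (G : Set L)) :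
    (RFactorizable G ↔ SigmaCompactSpace L) ∧
    (WeaklyPseudocompact G ↔ (CompactSpace L ∨ ¬ SigmaCompactSpace L ∨ G ≠ ⊤)) ∧
    (Precompact G ↔ CompactSpace L) := by
  have hd := RFAM.dense_of hG
  refine ⟨⟨fun h => hRFB L G hd h, fun h => hRFA L G hG⟩, ⟨fun h => ?_, fun h => ?_⟩, hPRE L G hd⟩
  · by_contra hcon
    push Not at hcon
    obtain ⟨hc, hs, ht⟩ := hcon
    subst ht
    have h1 : SigmaCompactSpace (⊤ : Subgroup L) := by
      have h2 : IsSigmaCompact (((⊤ : Subgroup L) : Set L)) := by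
        rw [Subgroup.coe_top]
        exact isSigmaCompact_univ
      exact isSigmaCompact_iff_sigmaCompactSpace.1 h2
    have h3 : CompactSpace (⊤ : Subgroup L) := hWPB _ h
    have h4 : IsCompact (((⊤ : Subgroup L) : Set L)) := isCompact_iff_compactSpace.2 h3
    rw [Subgroup.coe_top] at h4
    exact hc ⟨h4⟩
  · refine hWPA L (G : Set L) hG ?_
    rcases h with h | h | h
    · exact Or.inl h
    · exact Or.inr (Or.inl h)
    · exact Or.inr (Or.inr fun h1 => h (SetLike.coe_injective (by rw [h1]; rfl)))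

/-- The projection of `H × Σ` onto `H`. -/
noncomputable def pr (H : Type) [Group H] : SS H →* H := (MonoidHom.fst H (ℝ → Circle)).comp (SS H).subtype

/-- Every `σ`-compact locally compact group is an open image of a weakly pseudocompact
`ℝ`-factorizable group. -/
theorem main2 (hRFA : SpecRFA) (hRFB : SpecRFB) (hWPA : SpecWPA) (hWPB : SpecWPB) (hPRE : SpecPRE)
    (hEX : SpecEX) (H : Type) [Group H] [TopologicalSpace H] [IsTopologicalGroup H] [T2Space H]
    [LocallyCompactSpace H] [SigmaCompactSpace H] :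
    Continuous (pr H) ∧ IsOpenMap (pr H) ∧ Function.Surjective (pr H) ∧
      WeaklyPseudocompact (SS H) ∧ RFactorizable (SS H) ∧ (Precompact (SS H) ↔ CompactSpace H) ∧
      (ConnectedSpace H → ConnectedSpace (SS H)) := by
  obtain ⟨h1, h2, h3, h4⟩ := hEX H
  obtain ⟨hA, hB, hC⟩ := main1 hRFA hRFB hWPA hWPB hPRE (H × (ℝ → Circle)) (SS H) h1
  refine ⟨continuous_fst.comp continuous_subtype_val, h3, fun a => ?_, hB.2 (Or.inr (Or.inr h2)),
    hA.2 inferInstance, ⟨fun h => ?_, fun h => hC.2 inferInstance⟩, h4⟩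
  · refine ⟨⟨(a, 1), ?_⟩, rfl⟩
    change {t : ℝ | (1 : ℝ → Circle) t ≠ 1}.Countable
    simp
  · have h5 : CompactSpace (H × (ℝ → Circle)) := hC.1 h
    have h6 : IsCompact ((Prod.fst : H × (ℝ → Circle) → H) '' univ) :=
      isCompact_univ.image continuous_fst
    rw [image_univ, Prod.range_fst] at h6
    exact ⟨h6⟩

/-- A connected abelian example. -/
theorem main3 (hRFA : SpecRFA) (hRFB : SpecRFB) (hWPA : SpecWPA) (hWPB : SpecWPB) (hPRE : SpecPRE)
    (hEX : SpecEX) : ∃ (G : Type) (_ : CommGroup G) (_ : TopologicalSpace G)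
    (_ : IsTopologicalGroup G) (_ : T2Space G),
    ConnectedSpace G ∧ WeaklyPseudocompact G ∧ RFactorizable G ∧ ¬ Precompact G := by
  obtain ⟨-, -, -, h1, h2, h3, h4⟩ := main2 hRFA hRFB hWPA hWPB hPRE hEX (Multiplicative ℝ)
  refine ⟨SS (Multiplicative ℝ), inferInstance, inferInstance, inferInstance, inferInstance,
    h4 ?_, h1, h2, fun h => ?_⟩
  · exact (inferInstance : ConnectedSpace ℝ)
  · have h5 : CompactSpace ℝ := h3.1 h
    exact not_compactSpace_iff.2 (inferInstance : NoncompactSpace ℝ) h5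

end FINM

end Pool.Agent.Lib.MPbb2768.CL
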