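import Pool.Agent.Lib.MP_bb2768_gt.CL.Spec
import Pool.Agent.Lib.MP_bb2768_gt.LPB
import Pool.Agent.Lib.MP_bb2768_gt.KK

/-!
# The modules KK, CCC, INV, RFA, WPA, WPB, PRE of the classification, from the files LPA, LPB (helper23)
and KK (helper53)
-/

set_option autoImplicit false

namespace Pool.Agent.Lib.MPbb2768.CL

open Topology Set Pool.Agent.Lib.MP_bb2768_gt

namespace H23

theorem toG {L : Type} [TopologicalSpace L] {G : Set L} (h : GdDense G) : GDeltaDense G := by
  intro S hS hne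
  obtain ⟨x, hxS, hxG⟩ := h S hS hne
  exact ⟨x, hxG, hxS⟩

/-- The case of a space `X` which is not `σ`-compact: the one point compactification. -/
theorem wpc_of_not_sigmaCompact {X : Type} [TopologicalSpace X] [T2Space X]
    [LocallyCompactSpace X] (hX : ¬ SigmaCompactSpace X) {A : Set X} (h : GDeltaDense A) :
    WeaklyPseudocompact A := by
  let e : A → OnePoint X := fun a => ((a : X) : OnePoint X)
  have he : IsEmbedding e := OnePoint.isOpenEmbedding_coe.isEmbedding.comp IsEmbedding.subtypeVal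
  have key : ∀ S : Set (OnePoint X), IsGδ S → S.Nonempty → ∃ a, e a ∈ S := by
    intro S hS hne
    obtain ⟨U, hU, rfl⟩ := isGδ_iff_eq_iInter_nat.1 hS
    obtain ⟨q, hq⟩ := hne
    rw [mem_iInter] at hq
    have hV : ∀ n, IsOpen ((↑) ⁻¹' (U n) : Set X) := fun n =>
      (hU n).preimage OnePoint.continuous_coe
    obtain ⟨y, hy⟩ : ∃ y : X, y ∈ ⋂ n, ((↑) ⁻¹' (U n) : Set X) := by
      induction q using OnePoint.rec with
      | infty =>
        by_contra hno
        apply hX
        have hcov : (⋃ n, ((↑) ⁻¹' (U n) : Set X)ᶜ) = univ := by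
          rw [← compl_iInter, eq_univ_iff_forall]
          intro y hy
          exact hno ⟨y, hy⟩
        exact SigmaCompactSpace_iff_exists_compact_covering.2
          ⟨fun n => ((↑) ⁻¹' (U n) : Set X)ᶜ,
            fun n => ((OnePoint.isOpen_iff_of_mem (hq n)).1 (hU n)).2, hcov⟩
      | coe q => exact ⟨q, mem_iInter.2 hq⟩
    obtain ⟨a, ha, haV⟩ := h (⋂ n, ((↑) ⁻¹' (U n) : Set X)) (IsGδ.iInter_of_isOpen hV) ⟨y, hy⟩
    refine ⟨⟨a, ha⟩, ?_⟩
    rw [mem_iInter] at haV ⊢
    exact haV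
  refine ⟨OnePoint X, _, inferInstance, inferInstance, e, he, ?_, key⟩
  rw [DenseRange, dense_iff_inter_open]
  intro U hU hne
  obtain ⟨a, ha⟩ := key U hU.isGδ hne
  exact ⟨e a, ha, a, rfl⟩

theorem specKK : SpecKK := by
  intro L _ _ _ _ _ _ U hU
  obtain ⟨N, hN, hc, hNU, hsc⟩ := Pool.Agent.Lib.MPbb2768.KK.exists_normal U hU
  exact ⟨N, hN, hc.isClosed, hNU, hsc⟩

theorem specCCC : SpecCCC := by
  intro L _ _ _ _ _ _ F hF hd
  have h1 : Countable F := LPM.ccc (fun O : F => (O : Set L)) (fun O => (hF O O.2).1)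
    (fun O => (hF O O.2).2) (fun O O' hne => hd O.2 O'.2 (fun e => hne (Subtype.ext e)))
  exact h1

theorem specINV : SpecINV := by
  intro L _ _ _ _ _ _ V hV
  obtain ⟨U, hU, h⟩ := LPM.exists_closure_inv hV
  exact ⟨U, hU, fun N hN x hx y hy => h N hN x hx y hy⟩

theorem specRFA : SpecRFA := by
  intro L _ _ _ _ _ _ G hG
  exact LPM.rFactorizable (fun H _ _ _ _ _ _ U hU =>
    Pool.Agent.Lib.MPbb2768.KK.exists_normal U hU) G (toG hG)

theorem specWPA : SpecWPA := by
  intro X _ _ _ G hG h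
  rcases h with h | h | h
  · exact LPM.wpc_compact (toG hG)
  · exact wpc_of_not_sigmaCompact h (toG hG)
  · obtain ⟨p, hp⟩ : ∃ p, p ∉ G := by
      by_contra hno
      push Not at hno
      exact h (eq_univ_of_forall hno)
    exact LPM.wpc_point (toG hG) p hp

theorem specWPB : SpecWPB := fun _ _ _ h => LPM.compact_of_wpc h

theorem specPRE : SpecPRE := fun _ _ _ _ _ _ G hG => LPM.precompact_iff G hG

end H23

end Pool.Agent.Lib.MPbb2768.CL
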