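import Pool.Agent.Lib.MP_bb2768_gt.CL.Spec

/-! Module INV of the classification (MP_bb2768): the closure of an open set of a `σ`-compact locally compact group
is invariant under all sufficiently small subgroups. -/

set_option autoImplicit false

namespace Pool.Agent.Lib.MPbb2768.CL

open Topology Set Pointwise

namespace INVM

variable {L : Type} [Group L] [TopologicalSpace L]

/-- `W` is invariant on the right under all subgroups inside countably many neighbourhoods. -/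
def Tame (W : Set L) : Prop :=
  ∃ U : ℕ → Set L, (∀ n, U n ∈ 𝓝 (1 : L)) ∧ ∀ N : Subgroup L, (∀ n, (N : Set L) ⊆ U n) →
    ∀ x ∈ W, ∀ y ∈ N, x * y ∈ W

theorem exists_seq [IsTopologicalGroup L] (A : Set L) (hA : A ∈ 𝓝 (1 : L)) :
    ∃ V : ℕ → Set L, V 0 ⊆ A ∧ (∀ n, IsOpen (V n) ∧ (1 : L) ∈ V n) ∧ ∀ n, V (n + 1) * V (n + 1) ⊆ V n := by
  obtain ⟨B, hBA, hBo, hB1⟩ := mem_nhds_iff.1 hA
  have key : ∀ C : {C : Set L // IsOpen C ∧ (1 : L) ∈ C}, ∃ D : {D : Set L // IsOpen D ∧ (1 : L) ∈ D},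
      (D : Set L) * (D : Set L) ⊆ (C : Set L) := by
    rintro ⟨C, hCo, hC1⟩
    obtain ⟨D, hDo, hD1, hD⟩ := exists_open_nhds_one_mul_subset (hCo.mem_nhds hC1)
    exact ⟨⟨D, hDo, hD1⟩, hD⟩
  choose f hf using key
  refine ⟨fun n => (f^[n] ⟨B, hBo, hB1⟩ : Set L), hBA, fun n => (f^[n] ⟨B, hBo, hB1⟩).2, fun n => ?_⟩
  have := hf (f^[n] ⟨B, hBo, hB1⟩)
  simp only [Function.iterate_succ_apply']
  exact this

/-- The increasing products `x V₁ V₂ ⋯`. -/
def P (x : L) (V : ℕ → Set L) : ℕ → Set L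
  | 0 => {x} * V 1
  | n + 1 => P x V n * V (n + 2)

theorem exists_tame [IsTopologicalGroup L] (O : Set L) (hO : IsOpen O) (x : L) (hx : x ∈ O) :
    ∃ W : Set L, IsOpen W ∧ x ∈ W ∧ W ⊆ O ∧ Tame W := by
  have hA : (fun z => x * z) ⁻¹' O ∈ 𝓝 (1 : L) :=
    (hO.preimage (continuous_const_mul x)).mem_nhds (by simpa using hx)
  obtain ⟨V, hV0, hV, hVV⟩ := exists_seq _ hA
  have hopen : ∀ n, IsOpen (P x V n) := by
    intro n
    cases n with
    | zero => exact (hV 1).1.mul_left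
    | succ n => exact (hV (n + 2)).1.mul_left
  have hsub : ∀ n, P x V n * V (n + 1) ⊆ {x} * V 0 := by
    intro n
    induction n with
    | zero =>
      show {x} * V 1 * V 1 ⊆ {x} * V 0
      rw [mul_assoc]
      exact mul_subset_mul_left (hVV 0)
    | succ n ih =>
      show P x V n * V (n + 2) * V (n + 2) ⊆ {x} * V 0
      rw [mul_assoc]
      exact (mul_subset_mul_left (hVV (n + 1))).trans ih
  refine ⟨⋃ n, P x V n, isOpen_iUnion hopen, ?_, ?_, V, fun n => (hV n).1.mem_nhds (hV n).2, ?_⟩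
  · refine mem_iUnion.2 ⟨0, ?_⟩
    exact mem_mul.2 ⟨x, rfl, 1, (hV 1).2, mul_one x⟩
  · refine iUnion_subset fun n z hz => ?_
    have h1 : z ∈ {x} * V 0 := hsub n (mem_mul.2 ⟨z, hz, 1, (hV (n + 1)).2, mul_one z⟩)
    obtain ⟨a, ha, b, hb, rfl⟩ := mem_mul.1 h1
    rw [mem_singleton_iff] at ha
    subst ha
    exact hV0 hb
  · intro N hN z hz y hy
    obtain ⟨n, hn⟩ := mem_iUnion.1 hz
    refine mem_iUnion.2 ⟨n + 1, ?_⟩
    exact mem_mul.2 ⟨z, hn, y, hN (n + 2) hy, rfl⟩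

end INVM

open INVM in
theorem specINV (hCCC : SpecCCC) : SpecINV := by
  intro L _ _ _ _ _ _ V hV
  let T : Set (Set (Set L)) := {F | (∀ W ∈ F, IsOpen W ∧ W.Nonempty ∧ Tame W ∧ W ⊆ V) ∧ F.PairwiseDisjoint id}
  obtain ⟨F, hF⟩ := zorn_subset T (by
    intro c hc hch
    refine ⟨⋃₀ c, ⟨?_, ?_⟩, fun s hs => subset_sUnion_of_mem hs⟩
    · rintro W ⟨s, hs, hW⟩
      exact (hc hs).1 W hW
    · rw [pairwiseDisjoint_sUnion hch.directedOn]
      intro s hs
      exact (hc hs).2)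
  have hFT : F ∈ T := hF.prop
  have hcount : F.Countable := hCCC L F (fun W hW => ⟨(hFT.1 W hW).1, (hFT.1 W hW).2.1⟩) hFT.2
  have hsubV : ⋃₀ F ⊆ V := sUnion_subset fun W hW => (hFT.1 W hW).2.2.2
  have hclos : V ⊆ closure (⋃₀ F) := by
    intro x hxV
    by_contra hx
    obtain ⟨W, hWo, hxW, hWsub, hWt⟩ := exists_tame (V ∩ (closure (⋃₀ F))ᶜ)
      (hV.inter isClosed_closure.isOpen_compl) x ⟨hxV, hx⟩
    have hins : insert W F ∈ T := by
      refine ⟨?_, ?_⟩
      · intro A hA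
        rcases mem_insert_iff.1 hA with rfl | hA
        · exact ⟨hWo, ⟨x, hxW⟩, hWt, fun z hz => (hWsub hz).1⟩
        · exact hFT.1 A hA
      · refine hFT.2.insert ?_
        intro A hA _
        refine disjoint_left.2 fun z hzW hzA => ?_
        exact (hWsub hzW).2 (subset_closure (mem_sUnion.2 ⟨A, hA, hzA⟩))
    have hWF : W ∈ F := hF.le_of_ge hins (subset_insert W F) (mem_insert W F)
    exact (hWsub hxW).2 (subset_closure (mem_sUnion.2 ⟨W, hWF, hxW⟩))
  have hch : ∀ W : F, ∃ U : ℕ → Set L, (∀ n, U n ∈ 𝓝 (1 : L)) ∧ ∀ N : Subgroup L, (∀ n, (N : Set L) ⊆ U n) →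
      ∀ x ∈ (W : Set L), ∀ y ∈ N, x * y ∈ (W : Set L) := fun W => (hFT.1 W.1 W.2).2.2.1
  choose U hU1 hU2 using hch
  haveI : Countable F := hcount.to_subtype
  have hcU : (insert univ (range fun p : F × ℕ => U p.1 p.2)).Countable :=
    (countable_range _).insert _
  obtain ⟨u, hu⟩ := hcU.exists_eq_range (insert_nonempty _ _)
  refine ⟨u, ?_, ?_⟩
  · intro n
    have : u n ∈ insert univ (range fun p : F × ℕ => U p.1 p.2) := by
      rw [hu]; exact mem_range_self n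
    rcases mem_insert_iff.1 this with h | ⟨p, hp⟩
    · rw [h]; exact Filter.univ_mem
    · rw [← hp]; exact hU1 p.1 p.2
  · intro N hN x hx y hy
    have hx' : x ∈ closure (⋃₀ F) := closure_minimal hclos isClosed_closure hx
    refine closure_mono hsubV ?_
    refine map_mem_closure (f := fun z : L => z * y) (continuous_mul_const y) hx' ?_
    rintro z ⟨W, hW, hz⟩
    refine ⟨W, hW, hU2 ⟨W, hW⟩ N ?_ z hz y hy⟩
    intro n
    have : U ⟨W, hW⟩ n ∈ range u := by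
      rw [← hu]
      exact mem_insert_of_mem _ ⟨(⟨W, hW⟩, n), rfl⟩
    obtain ⟨k, hk⟩ := this
    rw [← hk]
    exact hN k

end Pool.Agent.Lib.MPbb2768.CL
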