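import Pool.Agent.Lib.MP_bb2768_gt.CL.Spec
import Pool.Agent.Lib.MP_bb2768_gt.KK

set_option autoImplicit false

namespace Pool.Agent.Lib.MPbb2768.CL

theorem specKK : SpecKK := by
  intro L _ _ _ _ _ _ U hU
  obtain ⟨N, hN, hc, h1, h2⟩ := Pool.Agent.Lib.MPbb2768.KK.exists_normal (H := L) U hU
  exact ⟨N, hN, hc.isClosed, h1, h2⟩

end Pool.Agent.Lib.MPbb2768.CL
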