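import Pool.Agent.Lib.MP_bb2768_gt.CL.H23

set_option autoImplicit false

namespace Pool.Agent.Lib.MPbb2768.CL

theorem specPRE : SpecPRE := H23.specPRE

end Pool.Agent.Lib.MPbb2768.CL
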