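import Mathlib
import Pool.Agent.Lib.MP_bb2768_gt.CL.Spec

set_option autoImplicit false

namespace Pool.Agent.Lib.MPbb2768.CL

open Topology Set Pool.Agent.Lib.MP_bb2768_gt Pointwise

theorem specRFB : SpecRFB := by
  intro L _ _ _ _ _ G hG hR
  obtain ⟨C, hCc, hC⟩ := exists_compact_mem_nhds (1 : L)
  obtain ⟨F, hF1, hF0, -, -⟩ := exists_continuous_one_zero_of_isCompact (s := ({1} : Set L))
    (t := (interior C)ᶜ) isCompact_singleton isOpen_interior.isClosed_compl (by
      rw [Set.disjoint_left]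
      intro x hx hx'
      rw [mem_singleton_iff] at hx
      rw [hx] at hx'
      exact hx' (mem_interior_iff_mem_nhds.2 hC))
  obtain ⟨H, _, _, _, _, _, π, h, hπ, hsurj, hh, hfac⟩ := hR (fun g : G => F (g : L))
    (F.continuous.comp continuous_subtype_val)
  have hWo : IsOpen {y : H | 1 / 2 < h y} := isOpen_lt continuous_const hh
  have h1W : (1 : H) ∈ {y : H | 1 / 2 < h y} := by
    have h1 := hfac 1
    rw [map_one] at h1
    have h2 : F ((1 : G) : L) = 1 := hF1 (mem_singleton _)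
    rw [h2] at h1
    show 1 / 2 < h 1
    rw [← h1]
    norm_num
  have hWC : ∀ g : G, 1 / 2 < h (π g) → (g : L) ∈ C := by
    intro g hg
    by_contra hn
    have h3 : F (g : L) = 0 := hF0 (fun hi => hn (interior_subset hi))
    rw [← hfac g, h3] at hg
    norm_num at hg
  obtain ⟨s, hs, hcov⟩ := TopologicalSpace.countable_cover_nhds
    (f := fun y : H => {z : H | 1 / 2 < h (y⁻¹ * z)}) (by
      intro y
      have ho : IsOpen {z : H | 1 / 2 < h (y⁻¹ * z)} :=
        hWo.preimage (continuous_const.mul continuous_id)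
      refine ho.mem_nhds ?_
      show 1 / 2 < h (y⁻¹ * y)
      rw [inv_mul_cancel]
      exact h1W)
  choose x hx using hsurj
  have key : (univ : Set L) = ⋃ y ∈ s, (fun z => ((x y : G) : L) * z) '' (C * C⁻¹) := by
    refine (eq_univ_of_forall fun z => ?_).symm
    have hO : IsOpen ((fun w : L => z⁻¹ * w) ⁻¹' (interior C)) :=
      isOpen_interior.preimage (continuous_const.mul continuous_id)
    have hz : z ∈ (fun w : L => z⁻¹ * w) ⁻¹' (interior C) := by
      show z⁻¹ * z ∈ interior C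
      rw [inv_mul_cancel]
      exact mem_interior_iff_mem_nhds.2 hC
    obtain ⟨g, hgO, hgG⟩ := hG.inter_open_nonempty _ hO ⟨z, hz⟩
    have hg1 : z⁻¹ * g ∈ C := interior_subset hgO
    have h4 : π ⟨g, hgG⟩ ∈ ⋃ y ∈ s, {z : H | 1 / 2 < h (y⁻¹ * z)} := by
      rw [hcov]
      exact mem_univ _
    rw [mem_iUnion₂] at h4
    obtain ⟨y, hy, h5⟩ := h4
    have h6 : ((((x y)⁻¹ * ⟨g, hgG⟩ : G)) : L) ∈ C := by
      apply hWC
      rw [map_mul, map_inv, hx y]
      exact h5
    have h7 : ((x y : G) : L)⁻¹ * g ∈ C := h6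
    rw [mem_iUnion₂]
    refine ⟨y, hy, ((x y : G) : L)⁻¹ * z, ?_, ?_⟩
    · refine Set.mem_mul.2 ⟨((x y : G) : L)⁻¹ * g, h7, (z⁻¹ * g)⁻¹, ?_, ?_⟩
      · rw [Set.mem_inv, inv_inv]
        exact hg1
      · rw [mul_inv_rev, inv_inv]
        group
    · show ((x y : G) : L) * (((x y : G) : L)⁻¹ * z) = z
      rw [mul_inv_cancel_left]
  rw [← isSigmaCompact_univ_iff, key]
  refine isSigmaCompact_biUnion hs ?_
  intro y _
  exact ((hCc.mul hCc.inv).image (continuous_const.mul continuous_id)).isSigmaCompact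

end Pool.Agent.Lib.MPbb2768.CL
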